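import Mathlib
import Pool.Agent.helper61.BM.All

/-!
# MP_143341_co (Bermond's degree pair condition), the case `c = n - 1`
-/

set_option autoImplicit false

namespace Pool.Agent.Results.MP_143341_co.AlmostSpanningCycle

/-- Let `G` be 2-connected on `n` vertices with vertices enumerated in any way and let `c = n - 1 ≥ 3`. If no pair `j < k`
has `c ≤ j + k`, `x_j x_k` a non-edge, `d(x_j) ≤ j`, `d(x_k) ≤ k - 1` and `d(x_j) + d(x_k) ≤ c - 1`, then `G` has a cycle of
length at least `c`. -/
theorem result :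
    ∀ (V : Type) [Fintype V] [DecidableEq V] (G : SimpleGraph V) [DecidableRel G.Adj] (c : ℕ),
      G.Connected →
      (∀ v : V, (G.induce {w : V | w ≠ v}).Connected) →
      3 ≤ c → c + 1 = Fintype.card V →
      ∀ e : Fin (Fintype.card V) ≃ V,
        (¬ ∃ j k : Fin (Fintype.card V),
            j < k ∧
            c ≤ ((j : ℕ) + 1) + ((k : ℕ) + 1) ∧
            ¬ G.Adj (e j) (e k) ∧
            G.degree (e j) ≤ (j : ℕ) + 1 ∧
            G.degree (e k) ≤ (k : ℕ) ∧
            G.degree (e j) + G.degree (e k) + 1 ≤ c) →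
        ∃ (u : V) (p : G.Walk u u), p.IsCycle ∧ c ≤ p.length :=
  Pool.Agent.helper61.BM.pASM

end Pool.Agent.Results.MP_143341_co.AlmostSpanningCycle
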